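import Pool.Agent.helper40.EY.WBez

set_option autoImplicit false

/-!
# EY-CM: additivity of the local multiplicity of complete intersections, without weights

`cmAdd`: if the systems `(a, f_i, i ≠ i0)` and `(b, f_i, i ≠ i0)` (`n` equations in `n` variables) have finite nonzero
multiplicity at the origin, then the multiplicity of `(a b, f_i, i ≠ i0)` is the sum.

Proof: all three multiplicities do not change if `X_j ^ D` (`D` large) is added to the equations (`cm_perturb`); then
the leading forms are `X_j ^ D`, and `a` is a nonzerodivisor modulo the other equations (`cm_affReg`: the quotient of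
`ℂ[t][x]` by `(F_j, F_i0 - t)` is free over `ℂ[t]`).
-/

namespace EY

open MvPolynomial Pool.Agent.helper62.BZ

noncomputable section

section fin

variable {n : ℕ}

/-- a system whose leading forms have no common zero: each equation is a nonzerodivisor modulo the others -/
theorem cm_affReg (F G : Fin n → MvPolynomial (Fin n) ℂ) (d : Fin n → ℕ) (hd : ∀ i, 0 < d i)
    (hG : ∀ i, (G i).IsHomogeneous (d i))
    (h0 : ∀ x : Fin n → ℂ, (∀ i, eval x (G i) = 0) → x = 0)
    (hF : ∀ i, (F i - G i).totalDegree < d i) (i0 : Fin n) (h : MvPolynomial (Fin n) ℂ)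
    (hh : F i0 * h ∈ Ideal.span (F '' {i0}ᶜ)) : h ∈ Ideal.span (F '' {i0}ᶜ) := by
  classical
  obtain ⟨ι, hι, e, de, he, hcard, H⟩ := exists_basis G d hd hG h0
  set T : Polynomial ℂ := Polynomial.X with hT
  set mp : MvPolynomial (Fin n) ℂ →+* MvPolynomial (Fin n) (Polynomial ℂ) :=
    map (algebraMap ℂ (Polynomial ℂ)) with hmp
  set G' : Fin n → MvPolynomial (Fin n) (Polynomial ℂ) := fun i =>
    mp (F i) - (if i = i0 then C T else 0) with hG'
  have hi0 : G' i0 = mp (F i0) - C T := by simp [hG']
  have hne : ∀ i, i ≠ i0 → G' i = mp (F i) := fun i hi => by simp [hG', hi]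
  obtain ⟨b, -⟩ := H (Polynomial ℂ) G' (fun i => by
    have e1 : G' i - mp (G i) = mp (F i - G i) - (if i = i0 then C T else 0) := by
      simp only [hG', map_sub]; ring
    rw [e1]
    refine lt_of_le_of_lt (totalDegree_sub _ _) (max_lt ?_ ?_)
    · refine lt_of_le_of_lt ?_ (hF i)
      unfold totalDegree
      exact Finset.sup_mono (support_map_subset _ _)
    · split_ifs
      · rw [totalDegree_C]; exact hd i
      · rw [totalDegree_zero]; exact hd i)
  have hz : Ideal.Quotient.mk (Ideal.span (Set.range G')) (mp h) = 0 := by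
    have h1 : T • Ideal.Quotient.mk (Ideal.span (Set.range G')) (mp h) = 0 := by
      have e1 : T • Ideal.Quotient.mk (Ideal.span (Set.range G')) (mp h) =
          Ideal.Quotient.mk (Ideal.span (Set.range G')) (C T * mp h) := by
        rw [← smul_eq_C_mul]
        rfl
      rw [e1, Ideal.Quotient.eq_zero_iff_mem]
      have e2 : C T * mp h = mp (F i0 * h) - G' i0 * mp h := by rw [hi0, map_mul]; ring
      rw [e2]
      apply Ideal.sub_mem
      · have h2 : mp (F i0 * h) ∈ (Ideal.span (F '' {i0}ᶜ)).map mp := Ideal.mem_map_of_mem _ hh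
        rw [Ideal.map_span] at h2
        refine Ideal.span_mono ?_ h2
        rintro _ ⟨_, ⟨i, hi, rfl⟩, rfl⟩
        exact ⟨i, hne i hi⟩
      · exact Ideal.mul_mem_right _ _ (Ideal.subset_span ⟨i0, rfl⟩)
    apply b.repr.injective
    rw [map_zero]
    ext j
    have h2 := congrArg (fun z => b.repr z j) h1
    simp only [map_smul, Finsupp.smul_apply, smul_eq_mul, map_zero, Finsupp.zero_apply,
      mul_eq_zero] at h2
    rcases h2 with h2 | h2
    · exact absurd h2 Polynomial.X_ne_zero
    · rw [h2]; rfl
  rw [Ideal.Quotient.eq_zero_iff_mem] at hz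
  set ev : MvPolynomial (Fin n) (Polynomial ℂ) →+* MvPolynomial (Fin n) ℂ :=
    eval₂Hom (Polynomial.aeval (F i0)).toRingHom X with hev
  have hev1 : ∀ f, ev (mp f) = f := by
    intro f
    rw [hev, hmp, coe_eval₂Hom, eval₂_map]
    have e1 : ((Polynomial.aeval (F i0)).toRingHom.comp (algebraMap ℂ (Polynomial ℂ)) :
        ℂ →+* MvPolynomial (Fin n) ℂ) = C := by
      ext c
      simp
    rw [e1]
    exact eval₂_eta f
  have hev2 : ev (C T) = F i0 := by
    rw [hev, coe_eval₂Hom, eval₂_C, hT]
    exact Polynomial.aeval_X _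
  have h3 : ev (mp h) ∈ (Ideal.span (Set.range G')).map ev := Ideal.mem_map_of_mem _ hz
  rw [hev1, Ideal.map_span] at h3
  refine (Ideal.span_le.mpr ?_) h3
  rintro _ ⟨_, ⟨i, rfl⟩, rfl⟩
  by_cases hi : i = i0
  · subst hi
    rw [hi0, map_sub, hev1, hev2, sub_self]
    exact Ideal.zero_mem _
  · rw [hne i hi, hev1]
    exact Ideal.subset_span ⟨i, hi, rfl⟩

/-- a finite multiplicity does not see terms of high order -/
theorem cm_perturb (f f' : Fin n → MvPolynomial (Fin n) ℂ) (N : ℕ)
    (hne : mulAt (Ideal.span (Set.range f)) 0 ≠ 0) (hN : mulAt (Ideal.span (Set.range f)) 0 + 1 ≤ N)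
    (hd : ∀ i, f i - f' i ∈ pt (0 : Fin n → ℂ) ^ N) :
    mulAt (Ideal.span (Set.range f')) 0 = mulAt (Ideal.span (Set.range f)) 0 := by
  set I := Ideal.span (Set.range f) with hI
  set I' := Ideal.span (Set.range f') with hI'
  set m := pt (0 : Fin n → ℂ) with hm
  have hfin := finite_of_mulAt hne
  set M := mulAt I 0 with hM
  have hk := killed_of_finite I 0 hfin (le_refl M)
  have hstep : m ^ M ≤ I ⊔ m ^ (M + 1) := by
    intro x hx
    obtain ⟨s, hs, hsx⟩ := hk x hx
    have hs0 : eval (0 : Fin n → ℂ) s ≠ 0 := fun h => hs (mem_pt.mpr h)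
    set c := eval (0 : Fin n → ℂ) s with hc
    have h1 : s - C c ∈ m := mem_pt.mpr (by rw [map_sub, eval_C, hc, sub_self])
    have e1 : x = C c⁻¹ * (s * x) - C c⁻¹ * ((s - C c) * x) := by
      have e2 : (C c⁻¹ * C c : MvPolynomial (Fin n) ℂ) = 1 := by
        rw [← C_mul, inv_mul_cancel₀ hs0, C_1]
      linear_combination (-x) * e2
    rw [e1]
    apply Ideal.sub_mem
    · exact Ideal.mem_sup_left (Ideal.mul_mem_left _ _ hsx)
    · apply Ideal.mem_sup_right
      apply Ideal.mul_mem_left
      rw [pow_succ']
      exact Ideal.mul_mem_mul h1 hx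
  have heq : ∀ k, k ≤ N → I ⊔ m ^ k = I' ⊔ m ^ k := by
    intro k hk
    have hmk : m ^ N ≤ m ^ k := Ideal.pow_le_pow_right hk
    apply le_antisymm
    · apply sup_le _ le_sup_right
      rw [hI, Ideal.span_le]
      rintro _ ⟨i, rfl⟩
      have e1 : f i = f' i + (f i - f' i) := by ring
      rw [e1]
      exact Ideal.add_mem _ (Ideal.mem_sup_left (Ideal.subset_span ⟨i, rfl⟩))
        (Ideal.mem_sup_right (hmk (hd i)))
    · apply sup_le _ le_sup_right
      rw [hI', Ideal.span_le]
      rintro _ ⟨i, rfl⟩
      have e1 : f' i = f i - (f i - f' i) := by ring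
      rw [e1]
      exact Ideal.sub_mem _ (Ideal.mem_sup_left (Ideal.subset_span ⟨i, rfl⟩))
        (Ideal.mem_sup_right (hmk (hd i)))
  have hstep' : m ^ M ≤ I' ⊔ m ^ (M + 1) := by rw [← heq (M + 1) hN]; exact hstep
  have h1 := (mulAt_eq_pow I 0 M hstep le_rfl).2
  have h2 := (mulAt_eq_pow I' 0 M hstep' le_rfl).2
  have h3 := heq M (by omega)
  rw [hm] at h3
  rw [h2, ← h3]
  exact h1.symm

theorem cm_add_fin (f : Fin n → MvPolynomial (Fin n) ℂ) (i0 : Fin n) (a b : MvPolynomial (Fin n) ℂ)
    (ha : mulAt (Ideal.span (Set.range (Function.update f i0 a))) 0 ≠ 0)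
    (hb : mulAt (Ideal.span (Set.range (Function.update f i0 b))) 0 ≠ 0) :
    mulAt (Ideal.span (Set.range (Function.update f i0 (a * b)))) 0 =
      mulAt (Ideal.span (Set.range (Function.update f i0 a))) 0 +
        mulAt (Ideal.span (Set.range (Function.update f i0 b))) 0 := by
  set A := mulAt (Ideal.span (Set.range (Function.update f i0 a))) 0 with hA
  set B := mulAt (Ideal.span (Set.range (Function.update f i0 b))) 0 with hB
  set D := A + B + 1 + (∑ j, (f j).totalDegree) + a.totalDegree + b.totalDegree + 1 with hD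
  set m := pt (0 : Fin n → ℂ) with hm
  have hXm : ∀ j, (X j : MvPolynomial (Fin n) ℂ) ∈ m := fun j => mem_pt.mpr (by simp)
  have hXD : ∀ j, (X j ^ D : MvPolynomial (Fin n) ℂ) ∈ m ^ D := fun j => Ideal.pow_mem_pow (hXm j) D
  set F : Fin n → MvPolynomial (Fin n) ℂ := fun j => f j + X j ^ D with hF
  set a' := a + X i0 ^ D with ha'
  set b' := b + X i0 ^ D with hb'
  have hle : ∀ j, (f j).totalDegree ≤ ∑ j, (f j).totalDegree := fun j =>
    Finset.single_le_sum (f := fun j => (f j).totalDegree) (fun _ _ => Nat.zero_le _) (Finset.mem_univ j)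
  -- the perturbed systems with one factor
  have hone : ∀ c : MvPolynomial (Fin n) ℂ,
      mulAt (Ideal.span (Set.range (Function.update f i0 c))) 0 ≠ 0 →
      mulAt (Ideal.span (Set.range (Function.update f i0 c))) 0 + 1 ≤ D →
      mulAt (Ideal.span (Set.range (Function.update F i0 (c + X i0 ^ D)))) 0 =
        mulAt (Ideal.span (Set.range (Function.update f i0 c))) 0 := by
    intro c h1 h2
    refine cm_perturb _ _ D h1 h2 fun i => ?_
    by_cases hi : i = i0
    · subst hi
      rw [Function.update_self, Function.update_self]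
      have : c - (c + X i ^ D) = -(X i ^ D) := by ring
      rw [this]
      exact Ideal.neg_mem_iff _ |>.mpr (hXD i)
    · rw [Function.update_of_ne hi, Function.update_of_ne hi]
      have : f i - F i = -(X i ^ D) := by rw [hF]; ring
      rw [this]
      exact Ideal.neg_mem_iff _ |>.mpr (hXD i)
  have hA' := hone a ha (by omega)
  have hB' := hone b hb (by omega)
  rw [← ha'] at hA'
  rw [← hb'] at hB'
  -- regularity
  have hreg : ∀ h s, s ∉ pt (0 : Fin n → ℂ) → s * (a' * h) ∈ Ideal.span (F '' {i0}ᶜ) →
      ∃ s', s' ∉ pt (0 : Fin n → ℂ) ∧ s' * h ∈ Ideal.span (F '' {i0}ᶜ) := by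
    intro h s hs hsh
    refine ⟨s, hs, ?_⟩
    have himg : (Function.update F i0 a') '' {i0}ᶜ = F '' {i0}ᶜ := by
      apply Set.image_congr
      intro i hi
      exact Function.update_of_ne hi _ _
    have h1 := cm_affReg (Function.update F i0 a') (fun j => X j ^ D) (fun _ => D)
      (fun _ => by omega) (fun j => by
        have := (isHomogeneous_X ℂ j).pow D
        rwa [one_mul] at this)
      (fun x hx => by
        funext j
        have h2 := hx j
        rw [map_pow, eval_X] at h2
        exact eq_zero_of_pow_eq_zero h2)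
      (fun j => by
        by_cases hj : j = i0
        · subst hj
          rw [Function.update_self]
          have : a' - X j ^ D = a := by rw [ha']; ring
          rw [this]
          omega
        · rw [Function.update_of_ne hj]
          have : F j - X j ^ D = f j := by rw [hF]; ring
          rw [this]
          have := hle j
          omega) i0 (s * h)
    rw [himg, Function.update_self] at h1
    apply h1
    have : a' * (s * h) = s * (a' * h) := by ring
    rw [this]
    exact hsh
  have hsA : Ideal.span (Set.range (Function.update F i0 a')) = Ideal.span (F '' {i0}ᶜ) ⊔ Ideal.span {a'} :=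
    span_update F a'
  have hsB : Ideal.span (Set.range (Function.update F i0 b')) = Ideal.span (F '' {i0}ᶜ) ⊔ Ideal.span {b'} :=
    span_update F b'
  have hsAB : Ideal.span (Set.range (Function.update F i0 (a' * b'))) =
      Ideal.span (F '' {i0}ᶜ) ⊔ Ideal.span {a' * b'} := span_update F (a' * b')
  have hmul := (mulAt_mul (Ideal.span (F '' {i0}ᶜ)) a' b' 0 hreg
    (by rw [← hsA]; exact finite_of_mulAt (by rw [hA']; exact ha))
    (by rw [← hsB]; exact finite_of_mulAt (by rw [hB']; exact hb))).2
  rw [← hsAB, ← hsA, ← hsB, hA', hB'] at hmul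
  rw [← hmul]
  refine cm_perturb _ _ D (by rw [hmul]; omega) (by rw [hmul]; omega) fun i => ?_
  by_cases hi : i = i0
  · subst hi
    rw [Function.update_self, Function.update_self]
    have : a' * b' - a * b = (a + b + X i ^ D) * X i ^ D := by rw [ha', hb']; ring
    rw [this]
    exact Ideal.mul_mem_left _ _ (hXD i)
  · rw [Function.update_of_ne hi, Function.update_of_ne hi]
    have : F i - f i = X i ^ D := by rw [hF]; ring
    rw [this]
    exact hXD i

end fin

variable {σ : Type*} [Fintype σ]

/-- **additivity of local multiplicities of complete intersections** -/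
theorem cmAdd [DecidableEq σ] (f : σ → MvPolynomial σ ℂ) (i0 : σ) (a b : MvPolynomial σ ℂ)
    (ha : mulAt (Ideal.span (Set.range (Function.update f i0 a))) 0 ≠ 0)
    (hb : mulAt (Ideal.span (Set.range (Function.update f i0 b))) 0 ≠ 0) :
    mulAt (Ideal.span (Set.range (Function.update f i0 (a * b)))) 0 =
      mulAt (Ideal.span (Set.range (Function.update f i0 a))) 0 +
        mulAt (Ideal.span (Set.range (Function.update f i0 b))) 0 := by
  have hup : ∀ z : MvPolynomial σ ℂ, rsys (Function.update f i0 z) =
      Function.update (rsys f) (Fintype.equivFin σ i0) (ren σ z) := by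
    intro z
    funext j
    unfold rsys
    by_cases hj : j = Fintype.equivFin σ i0
    · subst hj
      simp
    · rw [Function.update_of_ne hj, Function.update_of_ne]
      intro h
      exact hj (by rw [← h, Equiv.apply_symm_apply])
  rw [mulAt_rsys, hup] at ha hb
  rw [mulAt_rsys, mulAt_rsys (Function.update f i0 a), mulAt_rsys (Function.update f i0 b), hup, hup, hup,
    map_mul]
  exact cm_add_fin _ _ _ _ ha hb

end

end EY
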