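import Pool.Agent.helper51.EY.YSplit

set_option autoImplicit false
set_option linter.unusedSectionVars false
set_option linter.unusedSimpArgs false

/-!
# EY-ZDef: the step `Z(ω)`: `f = φ(T; w, x) + θ u^(q-2) y² (b + ω w)`, `T = u w + (y² + |x|²)/2`, `x = (b, z)`

The index type of `x` is `Option ρ`: `none = b`, `some r = z_r`.  Chart variables `Option (Option (Option ρ))`:
`none = w`, `some none = y`, `some (some none) = b`, `some (some (some r)) = z_r`.

With `L = φ_w + θ ω y²`, `h = b + ω w`, `v = (q-2) y²/2 - w` the sheet `y ≠ 0` is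
`h v = 0`, `2 θ h = L`, `φ_b + θ y² = b L`, `φ_z = z L`; it is the union of the sheets `h = 0` and `v = 0`
(`z_mult`).
-/

namespace EY

open MvPolynomial

noncomputable section

variable {ρ : Type} [Fintype ρ] [DecidableEq ρ]

/-- `R = θ u^(q-2) (b + ω w)` -/
def RZm (ρ : Type) (q : ℕ) (θ ω : ℂ) : MvPolynomial (Option (Option (Option (Option (Option ρ))))) ℂ :=
  C θ * (X (some none) ^ (q - 2) * (X (some (some (some (some none)))) + C ω * X (some (some none))))

/-- `h = b + ω w` -/
def zh (ρ : Type) (ω : ℂ) : MvPolynomial (Option (Option (Option ρ))) ℂ := X (some (some none)) + C ω * X none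

/-- `v = (q-2)/2 y² - w` -/
def zv (ρ : Type) (q : ℕ) : MvPolynomial (Option (Option (Option ρ))) ℂ :=
  C (((q : ℂ) - 2) / 2) * X (some none) ^ 2 - X none

/-- `L = φ_w + θ ω y²` -/
def zL (φ : MvPolynomial (Option (Option (Option ρ))) ℂ) (θ ω : ℂ) : MvPolynomial (Option (Option (Option ρ))) ℂ :=
  chY (Option ρ) (pderiv (some none) φ) + C (θ * ω) * X (some none) ^ 2

/-- the system `g, 2θh - L, φ_b + θy² - bL, φ_z - zL` -/
def zSys (φ : MvPolynomial (Option (Option (Option ρ))) ℂ) (θ ω : ℂ) (g : MvPolynomial (Option (Option (Option ρ))) ℂ) :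
    Option (Option (Option ρ)) → MvPolynomial (Option (Option (Option ρ))) ℂ
  | none => g
  | some none => C (2 * θ) * zh ρ ω - zL φ θ ω
  | some (some none) => chY (Option ρ) (pderiv (some (some none)) φ) + C θ * X (some none) ^ 2 -
      X (some (some none)) * zL φ θ ω
  | some (some (some r)) => chY (Option ρ) (pderiv (some (some (some r))) φ) -
      X (some (some (some r))) * zL φ θ ω

/-- the point `(T; w; b, z)` -/
def zpt (s w b : ℂ) (z : ρ → ℂ) : Option (Option (Option ρ)) → ℂ := vec s w fun o : Option ρ => o.elim b z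

theorem wh_RZm {q : ℕ} (hq : 2 ≤ q) (θ ω : ℂ) :
    wh (vT (Option (Option (Option (Option ρ))))) (q - 1) (RZm ρ q θ ω) := by
  unfold RZm
  refine wh_C_mul _ ?_
  have h1 := wh_mul (wh_pow (wh_X (vT (Option (Option (Option (Option ρ))))) (some none)) (q - 2))
    (wh_add (wh_X (vT (Option (Option (Option (Option ρ))))) (some (some (some (some none)))))
      (wh_C_mul ω (wh_X (vT (Option (Option (Option (Option ρ))))) (some (some none)))))
  have h2 : vT (Option (Option (Option (Option ρ)))) (some none) * (q - 2) +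
      vT (Option (Option (Option (Option ρ)))) (some (some (some (some none)))) = q - 1 := by
    have e1 : vT (Option (Option (Option (Option ρ)))) (some none) = 1 := rfl
    have e2 : vT (Option (Option (Option (Option ρ)))) (some (some (some (some none)))) = 1 := rfl
    rw [e1, e2]
    omega
  rwa [h2] at h1

theorem pderiv_RZm_w (q : ℕ) (θ ω : ℂ) :
    ch (pderiv (some (some none)) (RZm ρ q θ ω)) = C (θ * ω) := by
  unfold RZm
  simp only [Derivation.leibniz, Derivation.leibniz_pow, pderiv_C, pderiv_X, map_add, smul_eq_mul,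
    Pi.single_apply]
  unfold ch
  simp [C_mul]

theorem pderiv_RZm_b (q : ℕ) (θ ω : ℂ) :
    ch (pderiv (some (some (some (some none)))) (RZm ρ q θ ω)) = C θ := by
  unfold RZm
  simp only [Derivation.leibniz, Derivation.leibniz_pow, pderiv_C, pderiv_X, map_add, smul_eq_mul,
    Pi.single_apply]
  unfold ch
  simp

theorem pderiv_RZm_z (q : ℕ) (θ ω : ℂ) (r : ρ) :
    ch (pderiv (some (some (some (some (some r))))) (RZm ρ q θ ω)) = 0 := by
  unfold RZm
  simp only [Derivation.leibniz, Derivation.leibniz_pow, pderiv_C, pderiv_X, map_add, smul_eq_mul,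
    Pi.single_apply]
  unfold ch
  simp

theorem pderiv_RZm_y (q : ℕ) (θ ω : ℂ) :
    pderiv (some (some (some none))) (RZm ρ q θ ω) = 0 := by
  unfold RZm
  simp only [Derivation.leibniz, Derivation.leibniz_pow, pderiv_C, pderiv_X, map_add, smul_eq_mul,
    Pi.single_apply]
  simp

theorem ch_RZm (q : ℕ) (θ ω : ℂ) : ch (RZm ρ q θ ω) = C θ * zh ρ ω := by
  unfold RZm ch zh
  simp

theorem pderiv_RZm_u (q : ℕ) (hq : 2 ≤ q) (θ ω : ℂ) :
    ch (pderiv (some none) (RZm ρ q θ ω)) = C ((q : ℂ) - 2) * (C θ * zh ρ ω) := by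
  unfold RZm zh
  simp only [Derivation.leibniz, Derivation.leibniz_pow, pderiv_C, pderiv_X, map_add, smul_eq_mul,
    Pi.single_apply]
  unfold ch
  have h1 : ((q - 2 : ℕ) : ℂ) = (q : ℂ) - 2 := by
    rw [Nat.cast_sub hq]
    norm_num
  have h2 : (((q - 2 : ℕ) : MvPolynomial (Option (Option (Option ρ))) ℂ)) = C ((q : ℂ) - 2) := by
    rw [← h1]
    exact (map_natCast C (q - 2)).symm
  rw [← h2]
  simp
  ring

theorem span_stepSys_RZm (φ : MvPolynomial (Option (Option (Option ρ))) ℂ) {q : ℕ} (hq : 2 ≤ q) {θ : ℂ} (hθ : θ ≠ 0)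
    (ω : ℂ) : Ideal.span (Set.range (stepSys φ (RZm ρ q θ ω))) =
      Ideal.span (Set.range (zSys φ θ ω (zh ρ ω * zv ρ q))) := by
  have hL : stepL φ (RZm ρ q θ ω) = zL φ θ ω := by
    unfold stepL zL
    rw [pderiv_RZm_w]
    ring
  have hE : stepSys φ (RZm ρ q θ ω) (some none) = zSys φ θ ω (zh ρ ω * zv ρ q) (some none) := by
    change ch (2 * RZm ρ q θ ω + X (some (some (some none))) * pderiv (some (some (some none))) (RZm ρ q θ ω)) -
      stepL φ (RZm ρ q θ ω) = C (2 * θ) * zh ρ ω - zL φ θ ω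
    rw [pderiv_RZm_y, mul_zero, add_zero, map_mul, ch_RZm, hL, map_ofNat, C_mul]
    have : (C 2 : MvPolynomial (Option (Option (Option ρ))) ℂ) = 2 := map_ofNat C 2
    rw [this]
    ring
  have hb : stepSys φ (RZm ρ q θ ω) (some (some none)) = zSys φ θ ω (zh ρ ω * zv ρ q) (some (some none)) := by
    change chY (Option ρ) (pderiv (some (some none)) φ) +
      X (some none) ^ 2 * ch (pderiv (some (some (some (some none)))) (RZm ρ q θ ω)) -
        X (some (some none)) * stepL φ (RZm ρ q θ ω) = chY (Option ρ) (pderiv (some (some none)) φ) +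
        C θ * X (some none) ^ 2 - X (some (some none)) * zL φ θ ω
    rw [pderiv_RZm_b, hL]
    ring
  have hz : ∀ r, stepSys φ (RZm ρ q θ ω) (some (some (some r))) =
      zSys φ θ ω (zh ρ ω * zv ρ q) (some (some (some r))) := by
    intro r
    change chY (Option ρ) (pderiv (some (some (some r))) φ) +
      X (some none) ^ 2 * ch (pderiv (some (some (some (some (some r))))) (RZm ρ q θ ω)) -
        X (some (some (some r))) * stepL φ (RZm ρ q θ ω) = chY (Option ρ) (pderiv (some (some (some r))) φ) -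
        X (some (some (some r))) * zL φ θ ω
    rw [pderiv_RZm_z, hL]
    ring
  have hu : stepSys φ (RZm ρ q θ ω) none = C (2 * θ) * (zh ρ ω * zv ρ q) +
      X none * (C (2 * θ) * zh ρ ω - zL φ θ ω) := by
    change X (some none) ^ 2 * ch (pderiv (some none) (RZm ρ q θ ω)) - X none * stepL φ (RZm ρ q θ ω) = _
    rw [pderiv_RZm_u q hq, hL]
    unfold zv
    have h1 : (C ((q : ℂ) - 2) : MvPolynomial (Option (Option (Option ρ))) ℂ) =
        C 2 * C (((q : ℂ) - 2) / 2) := by
      rw [← C_mul]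
      congr 1
      ring
    rw [h1, C_mul]
    ring
  apply le_antisymm
  · rw [Ideal.span_le]
    rintro _ ⟨o, rfl⟩
    rcases o with _ | _ | _ | r
    · rw [hu]
      exact Ideal.add_mem _ (Ideal.mul_mem_left _ _ (Ideal.subset_span ⟨none, rfl⟩))
        (Ideal.mul_mem_left _ _ (Ideal.subset_span ⟨some none, rfl⟩))
    · rw [hE]; exact Ideal.subset_span ⟨some none, rfl⟩
    · rw [hb]; exact Ideal.subset_span ⟨some (some none), rfl⟩
    · rw [hz]; exact Ideal.subset_span ⟨some (some (some r)), rfl⟩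
  · rw [Ideal.span_le]
    rintro _ ⟨o, rfl⟩
    rcases o with _ | _ | _ | r
    · have h2 : zSys φ θ ω (zh ρ ω * zv ρ q) none = C (2 * θ)⁻¹ * (stepSys φ (RZm ρ q θ ω) none -
          X none * stepSys φ (RZm ρ q θ ω) (some none)) := by
        rw [hu, hE]
        change zh ρ ω * zv ρ q = C (2 * θ)⁻¹ * (C (2 * θ) * (zh ρ ω * zv ρ q) +
          X none * (C (2 * θ) * zh ρ ω - zL φ θ ω) - X none * (C (2 * θ) * zh ρ ω - zL φ θ ω))
        rw [add_sub_cancel_right, ← mul_assoc, ← C_mul, inv_mul_cancel₀ (mul_ne_zero two_ne_zero hθ), C_1, one_mul]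
      rw [h2]
      exact Ideal.mul_mem_left _ _ (Ideal.sub_mem _ (Ideal.subset_span ⟨none, rfl⟩)
        (Ideal.mul_mem_left _ _ (Ideal.subset_span ⟨some none, rfl⟩)))
    · rw [← hE]; exact Ideal.subset_span ⟨some none, rfl⟩
    · rw [← hb]; exact Ideal.subset_span ⟨some (some none), rfl⟩
    · rw [← hz]; exact Ideal.subset_span ⟨some (some (some r)), rfl⟩

theorem update_zSys (φ : MvPolynomial (Option (Option (Option ρ))) ℂ) (θ ω : ℂ)
    (g g' : MvPolynomial (Option (Option (Option ρ))) ℂ) :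
    Function.update (zSys φ θ ω g) none g' = zSys φ θ ω g' := by
  funext o
  rcases o with _ | _ | _ | r
  · exact Function.update_self _ _ _
  · rw [Function.update_of_ne (by simp)]; rfl
  · rw [Function.update_of_ne (by simp)]; rfl
  · rw [Function.update_of_ne (by simp)]; rfl

/-- **the multiplicity of the step `Z(ω)`** -/
theorem z_mult (φ : MvPolynomial (Option (Option (Option ρ))) ℂ) {q : ℕ} (hq : 2 ≤ q) {θ : ℂ} (hθ : θ ≠ 0)
    (ω : ℂ) (h0 : mulAt (affIdeal (formC φ) (gram (Option ρ)) (some none)) 0 ≠ 0)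
    (h1 : mulAt (Ideal.span (Set.range (zSys φ θ ω (zh ρ ω)))) 0 ≠ 0)
    (h2 : mulAt (Ideal.span (Set.range (zSys φ θ ω (zv ρ q)))) 0 ≠ 0) :
    mulAt (affIdeal (formR φ (RZm ρ q θ ω)) (gram (Option (Option ρ))) (some none)) 0 =
      mulAt (affIdeal (formC φ) (gram (Option ρ)) (some none)) 0 +
        (mulAt (Ideal.span (Set.range (zSys φ θ ω (zh ρ ω)))) 0 +
          mulAt (Ideal.span (Set.range (zSys φ θ ω (zv ρ q)))) 0) := by
  have h3 := cmAdd (zSys φ θ ω 0) none (zh ρ ω) (zv ρ q) (by rw [update_zSys]; exact h1)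
    (by rw [update_zSys]; exact h2)
  rw [update_zSys, update_zSys, update_zSys, ← span_stepSys_RZm φ hq hθ ω] at h3
  rw [← h3]
  exact step_split φ _ h0 (by rw [h3]; omega)

end

end EY
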