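import Pool.Agent.helper51.EY.ZDef
import Pool.Agent.helper5.EY.ZZ

set_option autoImplicit false
set_option linter.unusedSectionVars false

/-!
# EY-ZSt: the states needed for small `q` (metric free): `T1St`, `T4St`, `U0P`

`x = (b, z)`, index type `Option ρ`: `none = b`. Variables of `φ`: `none = σ`, `some none = w`,
`some (some none) = b`, `some (some (some r)) = z_r`.
-/

namespace EY

open MvPolynomial

noncomputable section

/-- the state for the step `T1`: on `b = 0` the derivative `φ_w` is `c w^a ∏ (σ - v_i w²)` (`r` factors, `v_i ≠ 0`), and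
`φ(0; 0, 0, z)` is nonsingular -/
structure T1St (ρ : Type) [Fintype ρ] (q E r : ℕ) (φ : MvPolynomial (Option (Option (Option ρ))) ℂ) : Prop where
  st : St (Option ρ) q E φ
  pw : ∃ (c : ℂ) (a : ℕ) (v : Fin r → ℂ) (G : MvPolynomial (Option (Option (Option ρ))) ℂ), c ≠ 0 ∧ (∀ i, v i ≠ 0) ∧ a + 2 * r = q ∧
    pderiv (some none) φ = C c * (X (some none) ^ a * ∏ i, (X none - C (v i) * X (some none) ^ 2)) +
      X (some (some none)) * G
  nz : ∀ z : ρ → ℂ, (∀ r, eval (zpt 0 0 0 z) (pderiv (some (some (some r))) φ) = 0) → z = 0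

/-- the state for the step `T4` (`q` even): no critical line of `φ(σ; 0, x)` lies in `b = 0`, and
`φ(0; 0, 0, z)` is nonsingular -/
structure T4St (ρ : Type) [Fintype ρ] (q E : ℕ) (φ : MvPolynomial (Option (Option (Option ρ))) ℂ) : Prop where
  st : St (Option ρ) q E φ
  nb : ∀ (s : ℂ) (z : ρ → ℂ), (∀ i : Option ρ, eval (zpt s 0 0 z) (pderiv (some (some i)) φ) = 0) → s = 0 ∧ z = 0
  nz : ∀ z : ρ → ℂ, (∀ r, eval (zpt 0 0 0 z) (pderiv (some (some (some r))) φ) = 0) → z = 0

/-- the form `P(w, b, z)` of the `U0` state `φ = σ b^(q-1) + P(w, b, z)`; the variables are `none = w`,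
`some none = b`, `some (some r) = z_r`; `P`, `P(0, b, z)`, `P(w, 0, z)`, `P(0, 0, z)` are nonsingular and the scheme
`P_w = P_z = 0` of the points `(1, b, z)` is finite of length `N` -/
structure U0P (ρ : Type) [Fintype ρ] (q N : ℕ) (P : MvPolynomial (Option (Option ρ)) ℂ) : Prop where
  hom : P.IsHomogeneous (q + 1)
  ns : ∀ p : Option (Option ρ) → ℂ, (∀ v, eval p (pderiv v P) = 0) → p = 0
  nsw : ∀ p : Option (Option ρ) → ℂ, p none = 0 → (∀ v, eval p (pderiv (some v) P) = 0) → p = 0
  nsb : ∀ p : Option (Option ρ) → ℂ, p (some none) = 0 → eval p (pderiv none P) = 0 →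
    (∀ r, eval p (pderiv (some (some r)) P) = 0) → p = 0
  nswb : ∀ p : Option (Option ρ) → ℂ, p none = 0 → p (some none) = 0 →
    (∀ r, eval p (pderiv (some (some r)) P) = 0) → p = 0
  fin : Module.Finite ℂ (MvPolynomial (Option ρ) ℂ ⧸ Ideal.span (Set.range fun o : Option ρ =>
    aeval (fun i : Option (Option ρ) => i.elim (1 : MvPolynomial (Option ρ) ℂ) X)
      (pderiv (o.elim (none : Option (Option ρ)) fun r => some (some r)) P)))
  len : Module.finrank ℂ (MvPolynomial (Option ρ) ℂ ⧸ Ideal.span (Set.range fun o : Option ρ =>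
    aeval (fun i : Option (Option ρ) => i.elim (1 : MvPolynomial (Option ρ) ℂ) X)
      (pderiv (o.elim (none : Option (Option ρ)) fun r => some (some r)) P))) = N

/-- the `U0` state -/
def phiU0 (ρ : Type) (q : ℕ) (t : ℂ) (P : MvPolynomial (Option (Option ρ)) ℂ) :
    MvPolynomial (Option (Option (Option ρ))) ℂ :=
  C t * (X none * X (some (some none)) ^ (q - 1)) + rename some P

end

end EY
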