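import Pool.Agent.helper51.EY.ZSt
import Pool.Agent.helper74.EY.T2J1

set_option autoImplicit false
set_option linter.unusedSectionVars false
set_option linter.unusedSimpArgs false

/-!
# EY-ZT2: the sheet `h = b + ω w = 0` of the step `Z(ω)`, `ω ≠ 0`, over `φ = t T b^(q-1) + P(w, b, z)`

PROOF. `L = P_w + θωy²` and `φ_b = (q-1) t T b^(q-2) + P_b`, `φ_z = P_z` (values in the chart,
`T = w + (y² + b² + |z|²)/2`). The ideal of `zSys φ θ ω (zh ρ ω)` is generated by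
`h = b + ω w`, `P_w - ω φ_b`, `P_w + θ ω y²`, `P_z`:
(`2θh - L` and `h` give `L`; `φ_b + θy² - bL` and `L` give `φ_b + θy²`; `L - ω (φ_b + θ y²) = P_w - ω φ_b`).
`wBez`, all weights 1, initial forms: `b + ω w` (1), `-ω (q-1) t w b^(q-2)` (`q-1`), `θ ω y²` (2), `P_z` (`q`).
Common zeros: `b = -ωw`, `w b^(q-2) = 0`, so `w = b = 0`, `y = 0`, `z = 0` by `hP0`.
So `mulAt = 1 * (q-1) * 2 * q^|ρ|`.
-/

namespace EY

open MvPolynomial

noncomputable section

variable {ρ : Type} [Fintype ρ] [DecidableEq ρ]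

theorem zT2_J1 {q : ℕ} (hq : 3 ≤ q) (P : MvPolynomial (Option (Option ρ)) ℂ) (hP : P.IsHomogeneous (q + 1))
    {t θ ω : ℂ} (ht : t ≠ 0) (hθ : θ ≠ 0) (hω : ω ≠ 0)
    (hP0 : ∀ p : Option (Option ρ) → ℂ, p none = 0 → p (some none) = 0 →
      (∀ r, eval p (pderiv (some (some r)) P) = 0) → p = 0) :
    mulAt (Ideal.span (Set.range (zSys (phiU0 ρ q t P) θ ω (zh ρ ω)))) 0 = 2 * (q - 1) * q ^ Fintype.card ρ :=
  t2_J1 (by omega) ht (by unfold phiU0; ring) hP hθ hω hP0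

end

end EY
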