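import Pool.Agent.helper26.SE.T3J1

set_option autoImplicit false
set_option linter.unusedSectionVars false
set_option linter.unusedSimpArgs false

/-!
# EY-ZT3: the sheet `h = b = 0` of the step `Z(0)` over `φ = t T b^(q-1) + P(w, b, z)`, `P(w, 0, z)` nonsingular

PROOF. `wBez` directly for `zSys φ θ 0 (zh ρ 0)`. Weights: `w`, `z`: 2, `y`: 1, `b`: `2 q + 1`.
`T = w + (y² + b² + |z|²)/2` has order `≥ 2`. Initial forms:
* `none`: `b` (`2q + 1`);
* `some none`: `2θb - φ_w`: `-P_w(w, 0, z)` (`2q`);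
* `some (some none)`: `φ_b + θy² - bφ_w`: `θ y²` (2): the other terms have order `≥ 2q > 2`
  (`t (q-1) T b^(q-2)` has order `≥ 2q + 3`, `P_b(w, b, z)` order `≥ 2q`);
* `some (some (some r))`: `φ_z - zφ_w`: `P_z(w, 0, z)` (`2q`).
Zeros: `b = 0`, `(w, z) = 0` by `hP0`, `y = 0`. So
`mulAt * ((2q+1) * 2 * 1 * 2^|ρ|) = (2q+1) * 2q * 2 * (2q)^|ρ|`.
-/

namespace EY

open MvPolynomial

noncomputable section

variable {ρ : Type} [Fintype ρ] [DecidableEq ρ]

theorem zT3_J1 {q : ℕ} (hq : 3 ≤ q) (P : MvPolynomial (Option (Option ρ)) ℂ) (hP : P.IsHomogeneous (q + 1))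
    {t θ : ℂ} (hθ : θ ≠ 0)
    (hP0 : ∀ p : Option (Option ρ) → ℂ, p (some none) = 0 → eval p (pderiv none P) = 0 →
      (∀ r, eval p (pderiv (some (some r)) P) = 0) → p = 0) :
    mulAt (Ideal.span (Set.range (zSys (phiU0 ρ q t P) θ 0 (zh ρ 0)))) 0 = 2 * q ^ (Fintype.card ρ + 1) :=
  zT3_J1_26 hq P hP hθ hP0

end

end EY
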