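import Pool.Agent.helper51.EY.ZSt
import Pool.Agent.helper60.LS.ZT4

set_option autoImplicit false
set_option linter.unusedSectionVars false
set_option linter.unusedSimpArgs false

/-!
# EY-ZT4: the sheet `h = b + ω w = 0` of the step `Z(ω)`, `ω ≠ 0`, `q` even, over a state without critical lines in
`w = b = 0`

PROOF. With `L = φ_w + θωy²` the ideal of `zSys φ θ ω (zh ρ ω)` is generated by `h = b + ω w`, `φ_w - ω φ_b`, `L`, `φ_z`
(`2θh - L` and `h` give `L`; `φ_b + θy² - bL` and `L` give `φ_b + θy²`; `L - ω (φ_b + θ y²) = φ_w - ω φ_b`).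
`wBez`, weights `w`: 4, `b`: 4, `z`: 2, `y`: `q`; `T = w + (y² + b² + |z|²)/2` has the initial form `w + |z|²/2` (4)
(`2q > 4`).  Initial forms: `b + ω w` (4), `(φ_w - ω φ_b)(w + |z|²/2; 0, 0, z)` (`2q`),
`φ_w(w + |z|²/2; 0, 0, z) + θ ω y²` (`2q`), `φ_z(w + |z|²/2; 0, 0, z)` (`2q`).
Zeros: `w + |z|²/2 = 0` and `z = 0` by `hN`, so `w = 0`, `b = 0`, `y = 0`.
`mulAt * (4 * 4 * q * 2^|ρ|) = 4 * 2q * 2q * (2q)^|ρ|`.  (`Lead.aeval` with the weights `2 * vw`.)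
The proof is in `Pool/Agent/helper60/LS/ZT4.lean`.
-/

namespace EY

open MvPolynomial

noncomputable section

variable {ρ : Type} [Fintype ρ] [DecidableEq ρ]

theorem zT4_J1 {q : ℕ} (hq : 3 ≤ q) {φ : MvPolynomial (Option (Option (Option ρ))) ℂ}
    (hφ : wh (vw (Option ρ)) (q + 1) φ) {θ ω : ℂ} (hθ : θ ≠ 0) (hω : ω ≠ 0)
    (hN : ∀ (s : ℂ) (z : ρ → ℂ), eval (zpt s 0 0 z) (pderiv (some none) φ) =
      ω * eval (zpt s 0 0 z) (pderiv (some (some none)) φ) →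
      (∀ r, eval (zpt s 0 0 z) (pderiv (some (some (some r))) φ) = 0) → s = 0 ∧ z = 0) :
    mulAt (Ideal.span (Set.range (zSys φ θ ω (zh ρ ω)))) 0 = q ^ (Fintype.card ρ + 1) :=
  zT4_J1_h60 hq hφ hθ hω hN

end

end EY
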