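import Pool.Agent.helper51.EY.ZSt
import Pool.Agent.helper74.EY.ZJ2

set_option autoImplicit false
set_option linter.unusedSectionVars false
set_option linter.unusedSimpArgs false

/-!
# EY-ZJ2 (module of helper74): the sheet `v = 0` of the step `Z(ω)`

PROOF. `wBez` (with `σ := Option (Option (Option ρ))`) for the system `zSys φ θ ω (zv ρ q)`.
Weights: `w`: `2 q`, `y`: `q`, `b`: `3`, `z`: `2`.  Degrees and initial forms (`T = w + (y² + b² + |z|²)/2` has the
initial form `|z|²/2` of weight 4; `w` and `b` have weight `> 2`, so in a polynomial `ψ` with `wh vw n ψ` their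
initial forms in weight 2 are `0`: use `Lead.aeval` with the weights `2 * vw`):
* `none`: `v`, weight `2 q`, initial form `v` itself (it is weighted homogeneous);
* `some none`: `2 θ (b + ω w) - L`, weight 3, initial form `2 θ b` (`L = φ_w + θ ω y²` has order `≥ 2 q > 3`);
* `some (some none)`: weight `2 q`, initial form `φ_b(|z|²/2; 0, 0, z) + θ y²` (`b L` has order `≥ 2 q + 3`);
* `some (some (some r))`: weight `2 q`, initial form `φ_{z_r}(|z|²/2; 0, 0, z)`.
Common zeros: `b = 0`, `z = 0` by `hi0`, then `y = 0`, then `w = 0`.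
So `mulAt * (2q * q * 3 * 2^|ρ|) = 2q * 3 * 2q * (2q)^|ρ|`.
-/

namespace EY

open MvPolynomial

noncomputable section

variable {ρ : Type} [Fintype ρ] [DecidableEq ρ]

theorem zJ2 {q : ℕ} (hq : 3 ≤ q) {φ : MvPolynomial (Option (Option (Option ρ))) ℂ}
    (hφ : wh (vw (Option ρ)) (q + 1) φ) {θ : ℂ} (hθ : θ ≠ 0) (ω : ℂ)
    (hi0 : ∀ z : ρ → ℂ, (∀ r, eval (zpt (hsq z) 0 0 z) (pderiv (some (some (some r))) φ) = 0) → z = 0) :
    mulAt (Ideal.span (Set.range (zSys φ θ ω (zv ρ q)))) 0 = 2 * q ^ Fintype.card ρ :=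
  z_J2 hq hφ hθ ω hi0

end

end EY
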