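import Pool.Agent.helper51.EY.ZSt
import Pool.Agent.helper39.EY.ZJ1

set_option autoImplicit false
set_option linter.unusedSectionVars false
set_option linter.unusedSimpArgs false

/-!
# EY-ZT1: the sheet `h = b = 0` of the step `Z(0)` over a state with `φ_w = c w^a ∏ (T - v_i w²) + b G`

From the general form `z_J1` (helper39, `EY/ZJ1.lean`): `F = ∏ (T - v_i w²)` is weighted homogeneous of weight `2r`.
-/

namespace EY

open MvPolynomial

noncomputable section

variable {ρ : Type} [Fintype ρ] [DecidableEq ρ]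

theorem zT1_J1 {q a r : ℕ} (hq : 3 ≤ q) (har : a + 2 * r = q) {φ : MvPolynomial (Option (Option (Option ρ))) ℂ}
    (hφ : wh (vw (Option ρ)) (q + 1) φ) {θ : ℂ} (hθ : θ ≠ 0) {c : ℂ} (hc : c ≠ 0)
    (v : Fin r → ℂ) (G : MvPolynomial (Option (Option (Option ρ))) ℂ)
    (hφw : pderiv (some none) φ = C c * (X (some none) ^ a * ∏ i, (X none - C (v i) * X (some none) ^ 2)) +
      X (some (some none)) * G)
    (hi0 : ∀ z : ρ → ℂ, (∀ r, eval (zpt (hsq z) 0 0 z) (pderiv (some (some (some r))) φ) = 0) → z = 0)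
    (hj0 : ∀ z : ρ → ℂ, (∀ r, eval (zpt 0 0 0 z) (pderiv (some (some (some r))) φ) = 0) → z = 0) :
    mulAt (Ideal.span (Set.range (zSys φ θ 0 (zh ρ 0)))) 0 = 2 * (q - r) * q ^ Fintype.card ρ := by
  have hi0' : ∀ z : ρ → ℂ,
      (∀ r, eval (zpt (EY.hq z) 0 0 z) (pderiv (some (some (some r))) φ) = 0) → z = 0 := by
    intro z hz
    have h1 : EY.hq z = hsq z := by
      unfold EY.hq hsq
      ring
    exact hi0 z (by rwa [← h1])
  rcases Nat.eq_zero_or_pos r with hr | hr
  · subst hr
    have ha : a = q := by omega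
    subst ha
    rw [Finset.univ_eq_empty, Finset.prod_empty, mul_one] at hφw
    rw [z_J1_pow hq hφ hθ hc (by omega) G hφw hi0']
    rw [Nat.sub_zero]
  · have hF : wh (vw (Option ρ)) (2 * r)
        (∏ i : Fin r, (X none - C (v i) * X (some none) ^ 2)) := by
      have h1 : wh (vw (Option ρ)) (∑ _ : Fin r, 2)
          (∏ i : Fin r, (X none - C (v i) * X (some none) ^ 2)) := by
        refine wh_prod Finset.univ fun i _ => ?_
        exact wh_sub (wh_X (vw (Option ρ)) none) (wh_C_mul _ (wh_pow (wh_X (vw (Option ρ)) (some none)) 2))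
      have h2 : (∑ _ : Fin r, 2) = 2 * r := by simp [mul_comm]
      rwa [h2] at h1
    rw [z_J1 (a := a) (e := 2 * r) hq (by omega) hφ hθ hc _ G hF hφw ?_ (fun _ => hi0')]
    · congr 1
      omega
    · intro s z h1 h2
      rw [map_prod, Finset.prod_eq_zero_iff] at h1
      obtain ⟨i, _, hi⟩ := h1
      have hs : s = 0 := by
        have h3 : eval (zpt s 0 0 z) (X none - C (v i) * X (some none) ^ 2) = s := by
          simp [zpt, vec]
        rw [← h3]
        exact hi
      subst hs
      exact ⟨rfl, hj0 z h2⟩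

end

end EY
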