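import Pool.Agent.helper51.EY.ZSt
import Pool.Agent.helper44.U.T1S
import Pool.Agent.helper46.U.Final

set_option autoImplicit false
set_option linter.unusedSectionVars false
set_option linter.unusedSimpArgs false

/-!
# EY-ZUA: what the small `q` windows need from the (U) team (stubs; `κ = K + 1`, `b = l` = the last `l`)

* `u3`, `u5a`: `φ_w = ε w^(q-3) (w - l) (σ - v w²)`; on `l = 0`: `w^(q-2) (σ - v w²)`.
* `u5e`: `φ_w = ε w (w² - l²) (σ - v w²)`, `e` even; on `l = 0`: `w³ (σ - v w²)`, `r = 1`.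
* `u5o`: `φ_w = ε w (w² - l² + σ) (σ - v w²)`, `e` odd; on `l = 0`: `w (σ + w²) (σ - v w²)`, `r = 2`.
* `u4`: the even states with `b` the innermost coordinate (`nb` and `nz` are inherited by openness: at `ε = 0` the
  `l`-equation gives `l = 0` after the induction hypothesis).
-/

namespace EY

open MvPolynomial

noncomputable section

theorem u3 (K E : ℕ) (h1 : 3 ^ (K + 1) ≤ E) (h2 : 2 * E ≤ 3 ^ (K + 2)) :
    ∃ φ : MvPolynomial (Option (Option (Option (Fin K)))) ℂ, T1St (Fin K) 3 E 1 φ := u3' K E h1 h2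

theorem u5a (K E : ℕ) (h1 : 5 ^ (K + 1) ≤ E) (h2 : 2 * E ≤ 3 * 5 ^ (K + 1)) :
    ∃ φ : MvPolynomial (Option (Option (Option (Fin K)))) ℂ, T1St (Fin K) 5 E 1 φ := u5a' K E h1 h2

theorem u5e (K e : ℕ) (h1 : Even e) (h2 : e ≤ 5 ^ (K + 1)) :
    ∃ φ : MvPolynomial (Option (Option (Option (Fin K)))) ℂ, T1St (Fin K) 5 (5 ^ (K + 1) + e) 1 φ :=
  u5e' K e h1 h2

theorem u5o (K e : ℕ) (h1 : Odd e) (h2 : e ≤ 5 ^ (K + 1)) :
    ∃ φ : MvPolynomial (Option (Option (Option (Fin K)))) ℂ, T1St (Fin K) 5 (5 ^ (K + 1) + e) 2 φ :=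
  u5o' K e h1 h2

theorem u4 (K E : ℕ) (h2 : E ≤ 2 * 4 ^ (K + 1)) :
    ∃ φ : MvPolynomial (Option (Option (Option (Fin K)))) ℂ, T4St (Fin K) 4 E φ := u4' K E h2

end

end EY
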