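import Pool.Agent.helper50.EY.TRz
import Pool.Agent.helper51.EY.ZUA
import Pool.Agent.helper51.EY.ZT1
import Pool.Agent.helper51.EY.ZJ2
import Pool.Agent.helper35.EY.FinZ2

set_option autoImplicit false
set_option linter.unusedSectionVars false
set_option linter.unusedSimpArgs false

/-!
# EY-T1St: the step `T1` over the states `T1St`, and the window `[6, 7]` for `q = 5`
-/

namespace EY.ZM

open MvPolynomial Filter Topology

noncomputable section

variable {ρ : Type} [Fintype ρ] [DecidableEq ρ]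

theorem scT_rz1 {q E r : ℕ} {φ : MvPolynomial (Option (Option (Option ρ))) ℂ} (h : T1St ρ q E r φ) (t : ℂ)
    (ht : t ≠ 0) : ∃ (c : ℂ) (a : ℕ) (v : Fin r → ℂ) (G : MvPolynomial (Option (Option (Option ρ))) ℂ), c ≠ 0 ∧
      (∀ i, v i ≠ 0) ∧ a + 2 * r = q ∧ pderiv (some none) (scT t φ) =
        C c * (X (some none) ^ a * ∏ i, (X none - C (v i) * X (some none) ^ 2)) + X (some (some none)) * G := by
  obtain ⟨c, a, v, G, hc, hv, ha, h1⟩ := h.pw
  refine ⟨c * t ^ r, a, fun i => v i / t, scT t G, mul_ne_zero hc (pow_ne_zero _ ht),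
    fun i => div_ne_zero (hv i) ht, ha, ?_⟩
  rw [pderiv_scT_some, h1, map_add, map_mul, map_mul, map_mul, map_pow, map_prod]
  have hC : ∀ c : ℂ, scT t (C c : MvPolynomial (Option (Option (Option ρ))) ℂ) = C c := by
    intro c
    unfold scT
    rw [aeval_C]
    rfl
  rw [hC, scT_some, scT_some]
  congr 1
  have h2 : ∀ i, scT t (X none - C (v i) * X (some none) ^ 2 : MvPolynomial (Option (Option (Option ρ))) ℂ) =
      C t * (X none - C (v i / t) * X (some none) ^ 2) := by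
    intro i
    rw [map_sub, map_mul, map_pow, hC, scT_none, scT_some, mul_sub, ← mul_assoc, ← C_mul, mul_div_cancel₀ _ ht]
  simp_rw [h2]
  rw [Finset.prod_mul_distrib, Finset.prod_const, Finset.card_univ, Fintype.card_fin, C_mul, C_pow]
  ring

theorem t1st_rz {q E r : ℕ} (hq3 : 3 ≤ q) {φ : MvPolynomial (Option (Option (Option ρ))) ℂ} (h : T1St ρ q E r φ) :
    Rz q (Fintype.card ρ + 4) (q ^ (Fintype.card ρ + 1) + q ^ (Fintype.card ρ + 2) - E +
      (2 * (q - r) * q ^ Fintype.card ρ + 2 * q ^ Fintype.card ρ)) := by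
  have h3 : ∀ᶠ t in 𝓝[≠] (0 : ℂ), t ≠ 0 := eventually_mem_nhdsWithin
  obtain ⟨t, ⟨hM, hi0⟩, ht⟩ := (((mst_scT h.st).and ((nz_scT h.st.wh h.nz).filter_mono nhdsWithin_le_nhds)).and
    h3).exists
  obtain ⟨c, a, v, G, hc, hv, ha, h1⟩ := scT_rz1 h t ht
  have hj0 : ∀ z : ρ → ℂ, (∀ r, eval (zpt 0 0 0 z) (pderiv (some (some (some r))) (scT t φ)) = 0) → z = 0 := by
    intro z hz
    apply h.nz
    intro r
    have h4 := hz r
    rw [pderiv_scT_some, eval_zpt_scT, mul_zero] at h4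
    exact h4
  have hQ : 0 < q ^ Fintype.card ρ := by positivity
  have hr : r < q := by omega
  refine z_rz_of (by omega) hM 0 ?_ (fun θ hθ => zT1_J1 hq3 ha hM.wh hθ hc v G h1 hi0 hj0)
    (fun θ hθ => zJ2 hq3 hM.wh hθ 0 hi0) ?_ (by omega)
  · simp only [← RZm_eq35]
    refine hM.finT1m hq3 ?_
    intro w z hw hz
    have hw0 : w = 0 := by
      rw [h1] at hw
      have e1 : eval (zpt 0 w 0 z) (X (some none) : MvPolynomial (Option (Option (Option ρ))) ℂ) = w := by
        rw [eval_X]; rfl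
      have e2 : eval (zpt 0 w 0 z) (X none : MvPolynomial (Option (Option (Option ρ))) ℂ) = 0 := by
        rw [eval_X]; rfl
      have e3 : eval (zpt 0 w 0 z) (X (some (some none)) : MvPolynomial (Option (Option (Option ρ))) ℂ) = 0 := by
        rw [eval_X]; rfl
      rw [map_add, map_mul, map_mul, map_mul, map_pow, map_prod, eval_C, e1, e3, zero_mul, add_zero] at hw
      have hw2 := (mul_eq_zero.mp hw).resolve_left hc
      rcases mul_eq_zero.mp hw2 with h5 | h5
      · exact eq_zero_of_pow_eq_zero h5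
      · rw [Finset.prod_eq_zero_iff] at h5
        obtain ⟨i, -, hi⟩ := h5
        rw [map_sub, map_mul, map_pow, eval_C, e1, e2, zero_sub, neg_eq_zero] at hi
        exact pow_eq_zero_iff two_ne_zero |>.mp ((mul_eq_zero.mp hi).resolve_left (hv i))
    subst hw0
    exact ⟨rfl, hj0 z hz⟩
  · have : 0 < q - r := by omega
    positivity

/-- the window `[6, 7]` for `q = 5` -/
theorem ha5 (K m : ℕ) (h1 : 6 * 5 ^ (K + 1) ≤ m) (h2 : m ≤ 7 * 5 ^ (K + 1)) : Rz 5 (K + 4) m := by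
  have e1 : 5 ^ (K + 1) = 5 * 5 ^ K := by ring
  have e2 : 5 ^ (K + 2) = 25 * 5 ^ K := by ring
  have hQ : 0 < 5 ^ K := by positivity
  have hodd : 5 ^ K % 2 = 1 := Nat.odd_iff.mp (Odd.pow (by decide))
  by_cases c : 65 * 5 ^ K ≤ 2 * m
  · obtain ⟨φ, hφ⟩ := u5a K (40 * 5 ^ K - m) (by rw [e1]; omega) (by rw [e1]; omega)
    have h3 := t1st_rz (by norm_num) hφ
    rw [Fintype.card_fin, e1, e2] at h3
    have h4 : 5 * 5 ^ K + 25 * 5 ^ K - (40 * 5 ^ K - m) + (2 * (5 - 1) * 5 ^ K + 2 * 5 ^ K) = m := by omega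
    rwa [h4] at h3
  by_cases d : Even (35 * 5 ^ K - m)
  · obtain ⟨φ, hφ⟩ := u5e K (35 * 5 ^ K - m) d (by rw [e1]; omega)
    have h3 := t1st_rz (by norm_num) hφ
    rw [Fintype.card_fin, e1, e2] at h3
    have h4 : 5 * 5 ^ K + 25 * 5 ^ K - (5 * 5 ^ K + (35 * 5 ^ K - m)) + (2 * (5 - 1) * 5 ^ K + 2 * 5 ^ K) = m := by
      omega
    rwa [h4] at h3
  · have hd : Odd (33 * 5 ^ K - m) := by
      rw [Nat.not_even_iff_odd, Nat.odd_iff] at d
      rw [Nat.odd_iff]
      omega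
    obtain ⟨φ, hφ⟩ := u5o K (33 * 5 ^ K - m) hd (by rw [e1]; omega)
    have h3 := t1st_rz (by norm_num) hφ
    rw [Fintype.card_fin, e1, e2] at h3
    have h4 : 5 * 5 ^ K + 25 * 5 ^ K - (5 * 5 ^ K + (33 * 5 ^ K - m)) + (2 * (5 - 2) * 5 ^ K + 2 * 5 ^ K) = m := by
      omega
    rwa [h4] at h3

end

end EY.ZM
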