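import Pool.Agent.helper50.EY.U0St
import Pool.Agent.helper51.EY.ZSt
import Pool.Agent.helper60.LS.U0

set_option autoImplicit false
set_option linter.unusedSectionVars false
set_option linter.unusedSimpArgs false

/-!
# EY-ZU0: the `U0` states `φ = σ b^(q-1) + P(w, b, z)` with every `N ∈ [0, q^κ]`, `κ = |ρ| + 1`

PROOF of `exists_U0P` (induction over `K`, `ρ = Fin K`; better: `ρ = Option ρ'` and one base case, then transport to
`Fin K` by `rename`).  Let `ψ(b, z)` be nonsingular with `ψ(0, z)` nonsingular: for `K = 0`: `ψ = b^(q+1)`; for `ρ = Option ρ'`: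
`ψ(b; l, z') = P_*(l, b, z')`, where `P_*` is the form for `ρ'` (its `w` is the new variable `l`), `N = N_* + j q^|ρ|`.
Put `P = ψ + ε ∫_l^w t^a (t - l) (t - b)^j dt`, `a + 1 + j = q` (for `K = 0`: `P = b^(q+1) + ε ∫_0^w t^a (t-b)^j dt`, `a + j = q`,
`N = j`).  So `P_w = ε w^a (w - l) (w - b)^j`, and `P_b ≡ ψ_b`, `P_z ≡ ψ_z` modulo `w - l`.
* `ns`, `nsw`, `nsb`, `nswb` for all small `ε ≠ 0` by helper50's `open_zero`: at `ε = 0` the system is
  (`w^a (w-l) (w-b)^j` in place of `P_w/ε`, `ψ_b`, `ψ_z`): `ψ` nonsingular gives `(b, z) = 0`, then `w^q = 0`; for `b = 0`: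
  `ψ(0, z)` nonsingular gives `z = 0`, then `w^q = 0`; for `w = 0` similarly.
* count at `w = 1`: additivity (helper50's `cnt_mul`, `cnt_pow`, `Cnt.lean`) over the factors `1`, `1 - l`, `(1 - b)^j` of
  `P_w(1, b, z)/ε`: on `l = 1` the equations are `ψ_z(b, 1, z') = 0`, i.e. `N_*` (this is `len` of `P_*`); on `b = 1` the
  equations are `P_z(1, 1, z) = 0` with the leading forms `P_z(0, 0, z)` (`nswb`): `q^|ρ|` (`affBez`).

PROOF of `u0_st`: `St`: `ndx` from `nsw`, `nd` from `ns` (at `σ = 0`, `q ≥ 3`), `critOne` of `φ`: `P_w`, `P_z` at `(1, b, z)` and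
`(q-1) t σ b^(q-2) + P_b`; `b` is a unit modulo `(P_w, P_z)(1, b, z)` by `nsb` (no zero with `b = 0`; Nullstellensatz), so
`σ` can be eliminated: the quotient is `ℂ[b, z] / (P_w, P_z)(1, b, z)`.
-/

namespace EY

open MvPolynomial

noncomputable section

theorem exists_U0P {q : ℕ} (hq : 3 ≤ q) (K N : ℕ) (hN : N ≤ q ^ (K + 1)) :
    ∃ P : MvPolynomial (Option (Option (Fin K))) ℂ, U0P (Fin K) q N P :=
  exists_U0P_h60 hq K N hN

theorem u0_st {ρ : Type} [Fintype ρ] [DecidableEq ρ] {q N : ℕ} (hq : 3 ≤ q)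
    {P : MvPolynomial (Option (Option ρ)) ℂ} (hP : U0P ρ q N P) {t : ℂ} (ht : t ≠ 0) :
    St (Option ρ) q N (phiU0 ρ q t P) := u0_state hq hP ht

end

end EY
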