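import Pool.Agent.helper35.EY.FinE
import Pool.Agent.helper51.EY.CM

set_option autoImplicit false
set_option linter.unusedSectionVars false
set_option linter.unusedSimpArgs false

/-!
# EY-YSplit: the two sheets of a step `f = φ(Q; w, x) + y² R(Q; u, w, y, x)`, `Q = u w + (y² + |x|²)/2`

In the chart `u = 1` (variables `Option (Option τ)`: `none = w`, `some none = y`, `some (some i) = x_i`) the equations
of the eigenscheme are, with `L = φ_w + y² R_w`:
`y² R_u - w L`, `y (2 R + y R_y - L)`, `φ_{x_i} + y² R_{x_i} - x_i L`.
`stepSys φ R` is this system with the `y`-equation divided by `y`.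

`step_split`: mulAt (eigenscheme of f) = mulAt (eigenscheme of `φ(Q; w, x)`) + mulAt (stepSys φ R).
-/

namespace EY

open MvPolynomial

noncomputable section

variable {τ : Type} [Fintype τ] [DecidableEq τ]

/-- the value of a polynomial in `σ, w, x` in the chart: `σ ↦ w + (y² + |x|²)/2` -/
def chY (τ : Type) [Fintype τ] [DecidableEq τ] :
    MvPolynomial (Option (Option τ)) ℂ →ₐ[ℂ] MvPolynomial (Option (Option τ)) ℂ :=
  aeval fun o => o.elim (qc (Option τ)) fun o' => o'.elim (X none) fun i => X (some (some i))

theorem ch_rename_embY (ψ : MvPolynomial (Option (Option τ)) ℂ) : ch (rename (embY τ) ψ) = chY τ ψ := by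
  unfold ch chY
  rw [aeval_rename]
  congr 2
  funext o
  rcases o with _ | _ | i <;> rfl

/-- the equation `L = φ_w + y² R_w` in the chart -/
def stepL (φ : MvPolynomial (Option (Option τ)) ℂ) (R : MvPolynomial (Option (Option (Option (Option τ)))) ℂ) :
    MvPolynomial (Option (Option τ)) ℂ :=
  chY τ (pderiv (some none) φ) + X (some none) ^ 2 * ch (pderiv (some (some none)) R)

/-- the equations of the sheet `y ≠ 0` -/
def stepSys (φ : MvPolynomial (Option (Option τ)) ℂ) (R : MvPolynomial (Option (Option (Option (Option τ)))) ℂ) :
    Option (Option τ) → MvPolynomial (Option (Option τ)) ℂ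
  | none => X (some none) ^ 2 * ch (pderiv (some none) R) - X none * stepL φ R
  | some none => ch (2 * R + X (some (some (some none))) * pderiv (some (some (some none))) R) - stepL φ R
  | some (some i) => chY τ (pderiv (some (some i)) φ) +
      X (some none) ^ 2 * ch (pderiv (some (some (some (some i)))) R) - X (some (some i)) * stepL φ R

theorem ch_Xy : ch (X (some (some (some none))) : MvPolynomial (Option (Option (Option (Option τ)))) ℂ) =
    X (some none) := by
  unfold ch; rw [aeval_X]; rfl

theorem pderiv_rename_embY_u (φ : MvPolynomial (Option (Option τ)) ℂ) :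
    pderiv (some none) (rename (embY τ) φ) = 0 := by
  apply pderiv_eq_zero_of_notMem_vars
  intro hmem
  obtain ⟨o, _, ho⟩ := Finset.mem_image.mp (vars_rename (embY τ) φ hmem)
  rcases o with _ | _ | o <;> simp [embY] at ho

theorem pderiv_rename_embY_y (φ : MvPolynomial (Option (Option τ)) ℂ) :
    pderiv (some (some (some none))) (rename (embY τ) φ) = 0 := by
  apply pderiv_eq_zero_of_notMem_vars
  intro hmem
  obtain ⟨o, _, ho⟩ := Finset.mem_image.mp (vars_rename (embY τ) φ hmem)
  rcases o with _ | _ | o <;> simp [embY] at ho

/-- derivatives of `stepF` in the directions `≠ y` -/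
theorem pderiv_stepF_ne (φ : MvPolynomial (Option (Option τ)) ℂ)
    (R : MvPolynomial (Option (Option (Option (Option τ)))) ℂ) (o : Option (Option (Option (Option τ))))
    (ho : o ≠ some (some (some none))) :
    pderiv o (stepF φ R) = pderiv o (rename (embY τ) φ) + X (some (some (some none))) ^ 2 * pderiv o R := by
  unfold stepF
  rw [map_add, Derivation.leibniz, Derivation.leibniz_pow, pderiv_X_of_ne (Ne.symm ho)]
  simp only [smul_zero, smul_eq_mul, mul_zero, add_zero]

theorem pderiv_stepF_y (φ : MvPolynomial (Option (Option τ)) ℂ)
    (R : MvPolynomial (Option (Option (Option (Option τ)))) ℂ) :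
    pderiv (some (some (some none))) (stepF φ R) = X (some (some (some none))) *
      (2 * R + X (some (some (some none))) * pderiv (some (some (some none))) R) := by
  unfold stepF
  rw [map_add, pderiv_rename_embY_y, Derivation.leibniz, Derivation.leibniz_pow, pderiv_X_self]
  simp only [smul_eq_mul, nsmul_eq_mul, Nat.cast_ofNat, mul_one, Nat.add_one_sub_one, pow_one]
  ring

theorem chSys_stepF (φ : MvPolynomial (Option (Option τ)) ℂ)
    (R : MvPolynomial (Option (Option (Option (Option τ)))) ℂ) :
    chSys (stepF φ R) = Function.update (stepSys φ R) (some none) (X (some none) * stepSys φ R (some none)) := by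
  have hw : ch (pderiv (some (some none)) (stepF φ R)) = stepL φ R := by
    have h1 : (some (some none) : Option (Option (Option (Option τ)))) = embY τ (some none) := rfl
    rw [pderiv_stepF_ne _ _ _ (by simp), map_add, map_mul, map_pow, ch_Xy]
    conv_lhs => rw [h1]
    rw [pderiv_rename embY_inj35, ch_rename_embY]
    rfl
  funext o
  rcases o with _ | _ | i
  · rw [Function.update_of_ne (by simp)]
    change ch (pderiv (some none) (stepF φ R)) - X none * ch (pderiv (some (some none)) (stepF φ R)) = _
    rw [hw, pderiv_stepF_ne _ _ _ (by simp), pderiv_rename_embY_u, zero_add, map_mul, map_pow, ch_Xy]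
    rfl
  · rw [Function.update_self]
    change ch (pderiv (some (some (some none))) (stepF φ R)) -
      X (some none) * ch (pderiv (some (some none)) (stepF φ R)) = _
    rw [hw, pderiv_stepF_y, map_mul, ch_Xy]
    change _ = X (some none) * (ch (2 * R + X (some (some (some none))) *
      pderiv (some (some (some none))) R) - stepL φ R)
    ring
  · rw [Function.update_of_ne (by simp)]
    change ch (pderiv (some (some (some (some i)))) (stepF φ R)) -
      X (some (some i)) * ch (pderiv (some (some none)) (stepF φ R)) = _
    have h1 : (some (some (some (some i))) : Option (Option (Option (Option τ)))) = embY τ (some (some i)) := rfl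
    rw [hw, pderiv_stepF_ne _ _ _ (by simp), map_add, map_mul, map_pow, ch_Xy]
    conv_lhs => rw [h1]
    rw [pderiv_rename embY_inj35, ch_rename_embY]
    rfl

theorem affIdeal_formR (φ : MvPolynomial (Option (Option τ)) ℂ)
    (R : MvPolynomial (Option (Option (Option (Option τ)))) ℂ) :
    affIdeal (formR φ R) (gram (Option τ)) (some none) = Ideal.span (Set.range
      (Function.update (stepSys φ R) (some none) (X (some none) * stepSys φ R (some none)))) := by
  unfold formR
  rw [affIdeal_subN, chSys_stepF]

/-! ### the sheet `y = 0` -/

/-- `y ↦ 0` -/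
def killY (τ : Type) : MvPolynomial (Option (Option τ)) ℂ →ₐ[ℂ] MvPolynomial (Option τ) ℂ :=
  aeval fun o => o.elim (X none) fun o' => o'.elim 0 fun i => X (some i)

/-- the section of `killY` -/
def insY (τ : Type) : Option τ → Option (Option τ) := fun o => o.elim none fun i => some (some i)

theorem killY_insY (f : MvPolynomial (Option τ) ℂ) : killY τ (rename (insY τ) f) = f := by
  unfold killY
  rw [aeval_rename]
  have : (fun o : Option (Option τ) => o.elim (X none) fun o' => o'.elim (0 : MvPolynomial (Option τ) ℂ)
      fun i => X (some i)) ∘ insY τ = X := by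
    funext o
    rcases o with _ | i <;> rfl
  rw [this, aeval_X_left_apply]

theorem sub_killY_mem (f : MvPolynomial (Option (Option τ)) ℂ) :
    f - rename (insY τ) (killY τ f) ∈ Ideal.span {(X (some none) : MvPolynomial (Option (Option τ)) ℂ)} := by
  induction f using MvPolynomial.induction_on with
  | C a =>
    have : rename (insY τ) (killY τ (C a)) = (C a : MvPolynomial (Option (Option τ)) ℂ) := by
      unfold killY; rw [aeval_C, MvPolynomial.algebraMap_eq, rename_C]
    rw [this, sub_self]; exact Ideal.zero_mem _
  | add p q hp hq =>
    have e : p + q - rename (insY τ) (killY τ (p + q)) =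
        (p - rename (insY τ) (killY τ p)) + (q - rename (insY τ) (killY τ q)) := by
      rw [map_add, map_add]; ring
    rw [e]; exact Ideal.add_mem _ hp hq
  | mul_X p o hp =>
    have e : p * X o - rename (insY τ) (killY τ (p * X o)) =
        X o * (p - rename (insY τ) (killY τ p)) + rename (insY τ) (killY τ p) *
          (X o - rename (insY τ) (killY τ (X o))) := by
      rw [map_mul, map_mul]; ring
    rw [e]
    apply Ideal.add_mem _ (Ideal.mul_mem_left _ _ hp)
    apply Ideal.mul_mem_left
    unfold killY
    rw [aeval_X]
    rcases o with _ | _ | i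
    · simp only [Option.elim, rename_X, insY, sub_self]; exact Ideal.zero_mem _
    · simp only [Option.elim, map_zero, sub_zero]; exact Ideal.subset_span rfl
    · simp only [Option.elim, rename_X, insY, sub_self]; exact Ideal.zero_mem _

theorem killY_chY (ψ : MvPolynomial (Option (Option τ)) ℂ) : killY τ (chY τ ψ) = subN (qc τ) ψ := by
  have h : (killY τ).comp (chY τ) = subN (qc τ) := by
    apply MvPolynomial.algHom_ext
    intro o
    unfold chY killY
    rw [AlgHom.comp_apply, aeval_X]
    rcases o with _ | _ | i
    · simp only [Option.elim, subN_none, qc, map_add, map_mul, aeval_X, map_sum, map_pow, Fintype.sum_option]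
      rw [show (C (1 / 2) : MvPolynomial (Option (Option τ)) ℂ) = algebraMap ℂ _ (1 / 2) from rfl,
        AlgHom.commutes]
      simp only [ne_eq, OfNat.ofNat_ne_zero, not_false_eq_true, zero_pow, zero_add]
      rfl
    · simp only [Option.elim, aeval_X, subN_some]
    · simp only [Option.elim, aeval_X, subN_some]
  exact AlgHom.congr_fun h ψ

/-- the multiplicity of the sheet `y = 0` is the one of the class C form -/
theorem mulAt_ysheet (φ : MvPolynomial (Option (Option τ)) ℂ)
    (R : MvPolynomial (Option (Option (Option (Option τ)))) ℂ) :
    mulAt (Ideal.span (Set.range (Function.update (stepSys φ R) (some none) (X (some none))))) 0 =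
      mulAt (affIdeal (formC φ) (gram τ) (some none)) 0 := by
  set I := Ideal.span (Set.range (Function.update (stepSys φ R) (some none) (X (some none)))) with hI
  have hY : (X (some none) : MvPolynomial (Option (Option τ)) ℂ) ∈ I :=
    Ideal.subset_span ⟨some none, Function.update_self _ _ _⟩
  have h1 : mulAt I 0 = mulAt (I.map (killY τ)) 0 := by
    refine mulAt_map (killY τ) (fun f => ⟨_, killY_insY f⟩) I ?_ 0 0 ?_
    · intro x hx
      have h2 := sub_killY_mem x
      rw [hx, map_zero, sub_zero] at h2
      exact (Ideal.span_le.mpr (Set.singleton_subset_iff.mpr hY)) h2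
    · intro x
      unfold killY
      induction x using MvPolynomial.induction_on with
      | C a => simp
      | add p q hp hq => rw [map_add, map_add, map_add, hp, hq]
      | mul_X p o hp =>
        rw [map_mul, map_mul, map_mul, hp, aeval_X]
        rcases o with _ | _ | i <;> simp
  have hkY : killY τ (X (some none)) = 0 := by unfold killY; rw [aeval_X]; rfl
  have hkw : killY τ (X none) = X none := by unfold killY; rw [aeval_X]; rfl
  have hkx : ∀ i, killY τ (X (some (some i))) = X (some i) := fun i => by unfold killY; rw [aeval_X]; rfl
  have hL : killY τ (stepL φ R) = critSys φ none := by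
    unfold stepL
    rw [map_add, killY_chY, map_mul, map_pow, hkY, zero_pow (by norm_num), zero_mul, add_zero]
    rfl
  rw [h1]
  congr 1
  unfold formC
  rw [affIdeal_subN, hI, Ideal.map_span, ← Set.range_comp]
  apply le_antisymm
  · rw [Ideal.span_le]
    rintro _ ⟨o, rfl⟩
    rcases o with _ | _ | i
    · have e1 : killY τ (Function.update (stepSys φ R) (some none) (X (some none)) none) =
          chSys (rename (embC τ) φ) none := by
        rw [Function.update_of_ne (by simp)]
        change killY τ (X (some none) ^ 2 * ch (pderiv (some none) R) - X none * stepL φ R) = _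
        rw [map_sub, map_mul, map_pow, hkY, zero_pow (by norm_num), zero_mul, zero_sub, map_mul, hL, hkw,
          chSys_embC_none]
      exact Ideal.subset_span ⟨none, e1.symm⟩
    · have e1 : killY τ (Function.update (stepSys φ R) (some none) (X (some none)) (some none)) = 0 := by
        rw [Function.update_self, hkY]
      change killY τ (Function.update (stepSys φ R) (some none) (X (some none)) (some none)) ∈ _
      rw [e1]
      exact Ideal.zero_mem _
    · have e1 : killY τ (Function.update (stepSys φ R) (some none) (X (some none)) (some (some i))) =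
          chSys (rename (embC τ) φ) (some i) := by
        rw [Function.update_of_ne (by simp)]
        change killY τ (chY τ (pderiv (some (some i)) φ) +
          X (some none) ^ 2 * ch (pderiv (some (some (some (some i)))) R) - X (some (some i)) * stepL φ R) = _
        rw [map_sub, map_add, map_mul (killY τ) (X (some none) ^ 2), map_pow, hkY, zero_pow (by norm_num),
          zero_mul, add_zero, map_mul, hL, hkx, killY_chY, chSys_embC_some]
        rfl
      exact Ideal.subset_span ⟨some i, e1.symm⟩
  · rw [Ideal.span_le]
    rintro _ ⟨o, rfl⟩
    rcases o with _ | i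
    · refine Ideal.subset_span ⟨none, ?_⟩
      change killY τ (Function.update (stepSys φ R) (some none) (X (some none)) none) = _
      rw [Function.update_of_ne (by simp)]
      change killY τ (X (some none) ^ 2 * ch (pderiv (some none) R) - X none * stepL φ R) = _
      rw [map_sub, map_mul, map_pow, hkY, zero_pow (by norm_num), zero_mul, zero_sub, map_mul, hL, hkw,
        chSys_embC_none]
    · refine Ideal.subset_span ⟨some (some i), ?_⟩
      change killY τ (Function.update (stepSys φ R) (some none) (X (some none)) (some (some i))) = _
      rw [Function.update_of_ne (by simp)]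
      change killY τ (chY τ (pderiv (some (some i)) φ) +
        X (some none) ^ 2 * ch (pderiv (some (some (some (some i)))) R) - X (some (some i)) * stepL φ R) = _
      rw [map_sub, map_add, map_mul (killY τ) (X (some none) ^ 2), map_pow, hkY, zero_pow (by norm_num),
        zero_mul, add_zero, map_mul, hL, hkx, killY_chY, chSys_embC_some]
      rfl

/-- **the two sheets of a step** -/
theorem step_split (φ : MvPolynomial (Option (Option τ)) ℂ)
    (R : MvPolynomial (Option (Option (Option (Option τ)))) ℂ)
    (h1 : mulAt (affIdeal (formC φ) (gram τ) (some none)) 0 ≠ 0)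
    (h2 : mulAt (Ideal.span (Set.range (stepSys φ R))) 0 ≠ 0) :
    mulAt (affIdeal (formR φ R) (gram (Option τ)) (some none)) 0 =
      mulAt (affIdeal (formC φ) (gram τ) (some none)) 0 + mulAt (Ideal.span (Set.range (stepSys φ R))) 0 := by
  rw [affIdeal_formR]
  have e1 : Function.update (stepSys φ R) (some none) (stepSys φ R (some none)) = stepSys φ R :=
    Function.update_eq_self _ _
  have h := cmAdd (stepSys φ R) (some none) (X (some none)) (stepSys φ R (some none))
    (by rw [mulAt_ysheet]; exact h1) (by rw [e1]; exact h2)
  rw [mulAt_ysheet, e1] at h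
  exact h

end

end EY
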